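import Pool.Agent.Helper74.DR.St

set_option autoImplicit false

namespace Pool.Agent.Helper54.DR

open Pool.Agent.Helper74.DR

/-- The stack after gadget `A` with all jokers pushed. -/
def Fs {T : Type} (x : T) : List T → List (Option T) → List (Option T)
  | _ :: z₂ :: Z, σ => none :: some z₂ :: Fs x Z σ
  | _, σ => none :: some x :: σ

theorem fs_push {T : Type} (x : T) : ∀ (Z : List T) (σ : List (Option T)),
    Tr (some (x, true) :: fw Z) σ (Fs x Z σ)
  | [], σ => by
    rw [tr_op]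
    exact Or.inl rfl
  | [_], σ => by
    rw [tr_op]
    exact Or.inl rfl
  | a :: z₂ :: Z, σ => by
    have ih := fs_push x Z σ
    have h : some (x, true) :: fw (a :: z₂ :: Z) =
        (some (x, true) :: fw Z) ++ [some (z₂, true), none] := rfl
    rw [h, tr_append]
    refine ⟨Fs x Z σ, ih, ?_⟩
    rw [tr_op]
    exact Or.inl rfl

theorem fs_close {T : Type} (x : T) : ∀ (Z : List T) (σ : List (Option T)), Odd Z.length →
    Tr (Z.map fun z => some (z, false)) (Fs x Z σ) (some x :: σ)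
  | [], _, h => absurd h (by simp)
  | [z], σ, _ => ⟨none, some x :: σ, rfl, Or.inl rfl, rfl⟩
  | a :: z₂ :: Z, σ, h => by
    have h' : Odd Z.length := by
      have h2 : Odd (Z.length + 2) := h
      rcases h2 with ⟨k, hk⟩
      exact ⟨k - 1, by omega⟩
    exact ⟨none, some z₂ :: Fs x Z σ, rfl, Or.inl rfl,
      ⟨some z₂, Fs x Z σ, rfl, Or.inr rfl, fs_close x Z σ h'⟩⟩

theorem fs_pop {T : Type} (x : T) : ∀ (Z : List T) (σ : List (Option T)),
    Tr (some (x, true) :: fw Z) σ σ
  | [], σ => by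
    rw [tr_op]
    exact Or.inr ⟨some x, σ, rfl, rfl⟩
  | [_], σ => by
    rw [tr_op]
    exact Or.inr ⟨some x, σ, rfl, rfl⟩
  | a :: z₂ :: Z, σ => by
    have ih := fs_pop x Z σ
    have h : some (x, true) :: fw (a :: z₂ :: Z) =
        (some (x, true) :: fw Z) ++ [some (z₂, true), none] := rfl
    rw [h, tr_append]
    refine ⟨σ, ih, ?_⟩
    rw [tr_op]
    exact Or.inr ⟨some z₂, σ, rfl, rfl⟩

theorem ew_pop {T : Type} : ∀ (U : List T) (ρ : List (Option T)), Odd U.length →
    Tr (ew U) (U.map some ++ ρ) ρ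
  | [], _, h => absurd h (by simp)
  | [u], ρ, _ => Or.inr ⟨some u, ρ, rfl, rfl⟩
  | u₁ :: u₂ :: U, ρ, h => by
    have h' : Odd U.length := by
      have h2 : Odd (U.length + 2) := h
      rcases h2 with ⟨k, hk⟩
      exact ⟨k - 1, by omega⟩
    exact Or.inr ⟨some u₁, some u₂ :: (U.map some ++ ρ), rfl,
      ⟨some u₂, U.map some ++ ρ, rfl, Or.inr rfl, ew_pop U ρ h'⟩⟩

theorem ew_push {T : Type} (x : T) : ∀ (U : List T) (ρ : List (Option T)), Odd U.length →
    Tr (ew U ++ [some (x, false)]) ρ ρ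
  | [], _, h => absurd h (by simp)
  | [u], ρ, _ => Or.inl ⟨none, ρ, rfl, Or.inl rfl, rfl⟩
  | u₁ :: u₂ :: U, ρ, h => by
    have h' : Odd U.length := by
      have h2 : Odd (U.length + 2) := h
      rcases h2 with ⟨k, hk⟩
      exact ⟨k - 1, by omega⟩
    exact Or.inl ⟨none, ρ, rfl, Or.inl rfl, ew_push x U ρ h'⟩

theorem hGC : StGC := by
  intro T x l hl σ
  refine ⟨?_, ?_, ?_, ?_⟩
  · have h : gA x l = (some (x, true) :: fw l) ++ l.map fun z => some (z, false) := rfl
    rw [h, tr_append]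
    exact ⟨Fs x l σ, fs_push x l σ, fs_close x l σ hl⟩
  · have h : gA x l = (some (x, true) :: fw l) ++ l.map fun z => some (z, false) := rfl
    rw [h, tr_append]
    exact ⟨l.map some ++ σ, fs_pop x l _, tr_cls' l σ⟩
  · unfold gB
    rw [tr_append]
    refine ⟨l.map some ++ (some x :: σ), ?_, ?_⟩
    · rw [tr_ops, List.reverse_reverse]
    · rw [tr_append]
      exact ⟨some x :: σ, ew_pop l _ hl, ⟨some x, σ, rfl, Or.inr rfl, rfl⟩⟩
  · unfold gB
    rw [tr_append]
    refine ⟨l.map some ++ σ, ?_, ew_push x l _ hl⟩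
    rw [tr_ops, List.reverse_reverse]

end Pool.Agent.Helper54.DR
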